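import Mathlib

/-!
Dope matrices and real quadratic fields.

If two tuples `Λ`, `Λ'` of distinct complex numbers have the same dope matrices and all ratios
`(Λ k - Λ i) / (Λ j - Λ i)` lie in a real quadratic field, then `Λ' = a + b φ(Λ)` for complex
numbers `a`, `b ≠ 0` and a field automorphism `φ` of `ℂ`.

The proof uses the polynomials `b0 x^N/N! + b1 x^(N+1)/(N+1)! + b2 x^(N+2)/(N+2)!`.  Their
derivative of order `N - y` vanishes at `w ≠ 0` if and only if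
`b0 (y+1)(y+2) + b1 (y+2) w + b2 w^2 = 0`.  Two such conditions at `w = 1` (orders `N - y1`,
`N - y2`) fix `(b0 : b1 : b2)`, and one more condition at `w = t` says
`(z+1)(z+2) - (y1+y2+3)(z+2) t + (y1+2)(y2+2) t^2 = 0`.  For a real quadratic `t` with both
conjugates positive, Pell's equation gives naturals `y1`, `y2`, `z` such that this is the
quadratic equation of `t`.  A suitable choice of the origin makes both conjugates positive.
-/

open Polynomial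

namespace Pool.Agent.Results.MP_344d54_co.RealQuadratic

/-- The dope matrix of `P` with respect to `Λ` (for polynomials of degree `n`): the entry `(i,j)`
says that the `j`-th derivative of `P` vanishes at `Λ i`. -/
def dope {m : ℕ} (Λ : Fin m → ℂ) (n : ℕ) (P : ℂ[X]) : Fin m → Fin (n + 1) → Prop :=
  fun i j => (derivative^[(j : ℕ)] P).eval (Λ i) = 0

/-- The set of all dope matrices of polynomials of degree `n`. -/
def dopeSet {m : ℕ} (Λ : Fin m → ℂ) (n : ℕ) : Set (Fin m → Fin (n + 1) → Prop) :=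
  {D | ∃ P : ℂ[X], P.degree = n ∧ D = dope Λ n P}

/-- `Λ ∼ Λ'`. -/
def DopeEquiv {m : ℕ} (Λ Λ' : Fin m → ℂ) : Prop := ∀ n : ℕ, dopeSet Λ n = dopeSet Λ' n

lemma transfer {m : ℕ} {Λ Λ' : Fin m → ℂ} (h : DopeEquiv Λ Λ') {n : ℕ} {P : ℂ[X]}
    (hP : P.degree = n) : ∃ P' : ℂ[X], P'.degree = n ∧ ∀ (i : Fin m) (k : ℕ), k ≤ n →
      ((derivative^[k] P).eval (Λ i) = 0 ↔ (derivative^[k] P').eval (Λ' i) = 0) := by
  have h1 : dope Λ n P ∈ dopeSet Λ' n := by
    rw [← h n]; exact ⟨P, hP, rfl⟩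
  obtain ⟨P', hP', hD⟩ := h1
  refine ⟨P', hP', fun i k hk => ?_⟩
  have := congrFun (congrFun hD i) ⟨k, Nat.lt_succ_of_le hk⟩
  simp only [dope] at this
  exact iff_of_eq this

/-- `b0 (x-p)^N/N! + b1 (x-p)^(N+1)/(N+1)! + b2 (x-p)^(N+2)/(N+2)!` -/
noncomputable def Q (p : ℂ) (N : ℕ) (b0 b1 b2 : ℂ) : ℂ[X] :=
  C (b0 / (N.factorial : ℂ)) * (X - C p) ^ N + C (b1 / ((N + 1).factorial : ℂ)) * (X - C p) ^ (N + 1)
    + C (b2 / ((N + 2).factorial : ℂ)) * (X - C p) ^ (N + 2)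

lemma desc (N s y : ℕ) (hy : y ≤ N) :
    (((N + s).descFactorial (N - y) : ℕ) : ℂ) * ((y + s).factorial : ℂ) = ((N + s).factorial : ℂ) := by
  have h := Nat.factorial_mul_descFactorial (n := N + s) (k := N - y) (by omega)
  have e : N + s - (N - y) = y + s := by omega
  rw [e] at h
  rw [mul_comm]
  exact_mod_cast h

lemma evalQ (p q : ℂ) (N y : ℕ) (hy : y ≤ N) (b0 b1 b2 : ℂ) :
    (((y + 2).factorial : ℕ) : ℂ) * (derivative^[N - y] (Q p N b0 b1 b2)).eval q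
      = (q - p) ^ y * (b0 * (y + 1) * (y + 2) + b1 * (y + 2) * (q - p) + b2 * (q - p) ^ 2) := by
  have e0 : N - (N - y) = y := by omega
  have e1 : N + 1 - (N - y) = y + 1 := by omega
  have e2 : N + 2 - (N - y) = y + 2 := by omega
  have h0 := desc N 0 y hy
  have h1 := desc N 1 y hy
  have h2 := desc N 2 y hy
  simp only [add_zero] at h0
  have f0 : ((N.factorial : ℕ) : ℂ) ≠ 0 := by exact_mod_cast Nat.factorial_ne_zero _
  have f1 : (((N + 1).factorial : ℕ) : ℂ) ≠ 0 := by exact_mod_cast Nat.factorial_ne_zero _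
  have f2 : (((N + 2).factorial : ℕ) : ℂ) ≠ 0 := by exact_mod_cast Nat.factorial_ne_zero _
  have g0 : ((y.factorial : ℕ) : ℂ) ≠ 0 := by exact_mod_cast Nat.factorial_ne_zero _
  have g1 : (((y + 1).factorial : ℕ) : ℂ) = (y + 1) * (y.factorial : ℂ) := by
    rw [Nat.factorial_succ]; push_cast; ring
  have g2 : (((y + 2).factorial : ℕ) : ℂ) = (y + 2) * ((y + 1) * (y.factorial : ℂ)) := by
    rw [Nat.factorial_succ, Nat.factorial_succ]; push_cast; ring
  have hev : (derivative^[N - y] (Q p N b0 b1 b2)).eval q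
      = b0 / (N.factorial : ℂ) * ((N.descFactorial (N - y) : ℂ) * (q - p) ^ y)
        + b1 / ((N + 1).factorial : ℂ) * (((N + 1).descFactorial (N - y) : ℂ) * (q - p) ^ (y + 1))
        + b2 / ((N + 2).factorial : ℂ) * (((N + 2).descFactorial (N - y) : ℂ) * (q - p) ^ (y + 2)) := by
    unfold Q
    rw [iterate_map_add, iterate_map_add, iterate_derivative_C_mul,
      iterate_derivative_C_mul, iterate_derivative_C_mul, iterate_derivative_X_sub_pow,
      iterate_derivative_X_sub_pow, iterate_derivative_X_sub_pow, e0, e1, e2]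
    simp [eval_add, eval_mul, eval_pow, eval_sub, nsmul_eq_mul]
  rw [hev]
  have a0 : b0 / (N.factorial : ℂ) * ((N.descFactorial (N - y) : ℂ)) * (y.factorial : ℂ) = b0 := by
    rw [mul_assoc, h0, div_mul_cancel₀ _ f0]
  have a1 : b1 / ((N + 1).factorial : ℂ) * (((N + 1).descFactorial (N - y) : ℂ))
      * ((y + 1) * (y.factorial : ℂ)) = b1 := by
    rw [← g1, mul_assoc, h1, div_mul_cancel₀ _ f1]
  have a2 : b2 / ((N + 2).factorial : ℂ) * (((N + 2).descFactorial (N - y) : ℂ))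
      * ((y + 2) * ((y + 1) * (y.factorial : ℂ))) = b2 := by
    rw [← g2, mul_assoc, h2, div_mul_cancel₀ _ f2]
  rw [g2]
  linear_combination (y + 1) * (y + 2) * (q - p) ^ y * a0 + (y + 2) * (q - p) ^ (y + 1) * a1
    + (q - p) ^ (y + 2) * a2

lemma evalQ_zero_iff {p q : ℂ} (hpq : q ≠ p) (N y : ℕ) (hy : y ≤ N) (b0 b1 b2 : ℂ) :
    (derivative^[N - y] (Q p N b0 b1 b2)).eval q = 0 ↔
      b0 * (y + 1) * (y + 2) + b1 * (y + 2) * (q - p) + b2 * (q - p) ^ 2 = 0 := by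
  have h := evalQ p q N y hy b0 b1 b2
  have g : (((y + 2).factorial : ℕ) : ℂ) ≠ 0 := by exact_mod_cast Nat.factorial_ne_zero _
  have hw : (q - p) ^ y ≠ 0 := pow_ne_zero _ (sub_ne_zero.mpr hpq)
  constructor
  · intro h0
    rw [h0, mul_zero] at h
    exact (mul_eq_zero.mp h.symm).resolve_left hw
  · intro h0
    rw [h0, mul_zero] at h
    exact (mul_eq_zero.mp h).resolve_left g

lemma evalQ_self (p : ℂ) (N k : ℕ) (hk : k < N) (b0 b1 b2 : ℂ) :
    (derivative^[k] (Q p N b0 b1 b2)).eval p = 0 := by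
  have h := evalQ p p N (N - k) (by omega) b0 b1 b2
  have g : ((((N - k) + 2).factorial : ℕ) : ℂ) ≠ 0 := by exact_mod_cast Nat.factorial_ne_zero _
  have e : N - (N - k) = k := by omega
  rw [e, sub_self, zero_pow (by omega), zero_mul] at h
  exact (mul_eq_zero.mp h).resolve_left g

lemma evalQ_self' (p : ℂ) (N : ℕ) (b0 b1 b2 : ℂ) :
    (derivative^[N] (Q p N b0 b1 b2)).eval p = b0 := by
  have h := evalQ p p N 0 (by omega) b0 b1 b2
  simp [Nat.factorial] at h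
  linear_combination h / 2

lemma repr (p : ℂ) (N : ℕ) (P : ℂ[X]) (hd : P.natDegree ≤ N + 2)
    (h0 : ∀ k < N, (derivative^[k] P).eval p = 0) :
    P = Q p N ((derivative^[N] P).eval p) ((derivative^[N + 1] P).eval p)
      ((derivative^[N + 2] P).eval p) := by
  have hc : ∀ k, (taylor p P).coeff k = (derivative^[k] P).eval p / (k.factorial : ℂ) := by
    intro k
    have g : ((k.factorial : ℕ) : ℂ) ≠ 0 := by exact_mod_cast Nat.factorial_ne_zero _
    have e : derivative^[k] P = k.factorial • hasseDeriv k P := by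
      rw [← factorial_smul_hasseDeriv]; rfl
    rw [taylor_coeff, e, eval_smul, nsmul_eq_mul, mul_div_cancel_left₀ _ g]
  have h1 := sum_taylor_eq P p
  rw [sum_over_range' _ (by simp) (N + 3) (by rw [natDegree_taylor]; omega)] at h1
  rw [Finset.sum_range_succ, Finset.sum_range_succ, Finset.sum_range_succ,
    Finset.sum_eq_zero (s := Finset.range N), zero_add] at h1
  · rw [hc, hc, hc] at h1
    conv_lhs => rw [← h1]
    rfl
  · intro k hk
    rw [hc, h0 k (Finset.mem_range.mp hk)]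
    simp

lemma degreeQ (p : ℂ) (N : ℕ) (b0 b1 b2 : ℂ) (h2 : b2 ≠ 0) :
    (Q p N b0 b1 b2).degree = ((N + 2 : ℕ) : WithBot ℕ) := by
  have f2 : (((N + 2).factorial : ℕ) : ℂ) ≠ 0 := by exact_mod_cast Nat.factorial_ne_zero _
  have hX : ∀ k : ℕ, ((X - C p : ℂ[X]) ^ k).degree = (k : WithBot ℕ) := by
    intro k
    rw [degree_pow, degree_X_sub_C]; simp
  unfold Q
  rw [degree_add_eq_right_of_degree_lt]
  · rw [degree_C_mul (div_ne_zero h2 f2), hX]
  · rw [degree_C_mul (div_ne_zero h2 f2), hX]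
    refine lt_of_le_of_lt (degree_add_le _ _) (max_lt ?_ ?_)
    · rw [← smul_eq_C_mul]
      refine lt_of_le_of_lt (degree_smul_le _ _) ?_
      rw [hX]; exact_mod_cast (by omega : N < N + 2)
    · rw [← smul_eq_C_mul]
      refine lt_of_le_of_lt (degree_smul_le _ _) ?_
      rw [hX]; exact_mod_cast (by omega : N + 1 < N + 2)


/-- detecting positive rational ratios by binomials -/
lemma core2 {m : ℕ} {Λ Λ' : Fin m → ℂ} (hΛ : Function.Injective Λ) (hΛ' : Function.Injective Λ')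
    (h : DopeEquiv Λ Λ') {i0 i1 i2 : Fin m} (h01 : i0 ≠ i1) (h02 : i0 ≠ i2) (y z : ℕ)
    (hr : ((z : ℂ) + 1) * (Λ i1 - Λ i0) = (y + 1) * (Λ i2 - Λ i0)) :
    ((z : ℂ) + 1) * (Λ' i1 - Λ' i0) = (y + 1) * (Λ' i2 - Λ' i0) := by
  have n1 : Λ i1 ≠ Λ i0 := fun e => h01 (hΛ e).symm
  have n2 : Λ i2 ≠ Λ i0 := fun e => h02 (hΛ e).symm
  have n1' : Λ' i1 ≠ Λ' i0 := fun e => h01 (hΛ' e).symm
  have n2' : Λ' i2 ≠ Λ' i0 := fun e => h02 (hΛ' e).symm
  have w1 : Λ i1 - Λ i0 ≠ 0 := sub_ne_zero.mpr n1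
  have w1' : Λ' i1 - Λ' i0 ≠ 0 := sub_ne_zero.mpr n1'
  have hy1 : ((y : ℂ) + 1) ≠ 0 := by exact_mod_cast Nat.succ_ne_zero y
  have hy2 : ((y : ℂ) + 2) ≠ 0 := by exact_mod_cast Nat.succ_ne_zero (y + 1)
  have hz2 : ((z : ℂ) + 2) ≠ 0 := by exact_mod_cast Nat.succ_ne_zero (z + 1)
  set N := y + z + 1 with hN
  set P := Q (Λ i0) N (Λ i1 - Λ i0) (-(y + 1)) 0 with hP
  have hdeg : P.degree = ((N + 1 : ℕ) : WithBot ℕ) := by
    have f1 : (((N + 1).factorial : ℕ) : ℂ) ≠ 0 := by exact_mod_cast Nat.factorial_ne_zero _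
    have hX : ∀ k : ℕ, ((X - C (Λ i0) : ℂ[X]) ^ k).degree = (k : WithBot ℕ) := by
      intro k
      rw [degree_pow, degree_X_sub_C]; simp
    rw [hP]
    unfold Q
    simp only [zero_div, C_0, zero_mul, add_zero]
    rw [degree_add_eq_right_of_degree_lt]
    · rw [degree_C_mul (div_ne_zero (neg_ne_zero.mpr hy1) f1), hX]
    · rw [degree_C_mul (div_ne_zero (neg_ne_zero.mpr hy1) f1), hX, ← smul_eq_C_mul]
      refine lt_of_le_of_lt (degree_smul_le _ _) ?_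
      rw [hX]; exact_mod_cast (by omega : N < N + 1)
  obtain ⟨P', hd', hT⟩ := transfer h hdeg
  have hnd : P'.natDegree ≤ N + 1 := natDegree_le_of_degree_le (le_of_eq hd')
  have hb2 : (derivative^[N + 2] P').eval (Λ' i0) = 0 := by
    rw [iterate_derivative_eq_zero (by omega)]; simp
  have hrep := repr (Λ' i0) N P' (by omega) (fun k hk =>
    (hT i0 k (by omega)).mp (evalQ_self (Λ i0) N k hk _ _ _))
  rw [hb2] at hrep
  set b0 := (derivative^[N] P').eval (Λ' i0) with hb0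
  set b1 := (derivative^[N + 1] P').eval (Λ' i0) with hb1
  have hb0' : b0 ≠ 0 := by
    intro h0
    have := (hT i0 N (by omega)).mpr h0
    rw [hP, evalQ_self'] at this
    exact w1 this
  have E1 : b0 * (y + 1) * (y + 2) + b1 * (y + 2) * (Λ' i1 - Λ' i0) + 0 * (Λ' i1 - Λ' i0) ^ 2 = 0 := by
    rw [← evalQ_zero_iff n1' N y (by omega), ← hrep]
    refine (hT i1 (N - y) (by omega)).mp ?_
    rw [hP, evalQ_zero_iff n1 N y (by omega)]
    ring
  have E2 : b0 * (z + 1) * (z + 2) + b1 * (z + 2) * (Λ' i2 - Λ' i0) + 0 * (Λ' i2 - Λ' i0) ^ 2 = 0 := by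
    rw [← evalQ_zero_iff n2' N z (by omega), ← hrep]
    refine (hT i2 (N - z) (by omega)).mp ?_
    rw [hP, evalQ_zero_iff n2 N z (by omega)]
    linear_combination ((z : ℂ) + 2) * hr
  have E1' : b1 * (Λ' i1 - Λ' i0) = - (b0 * (y + 1)) := by
    apply mul_left_cancel₀ hy2
    linear_combination E1
  have E2' : b1 * (Λ' i2 - Λ' i0) = - (b0 * (z + 1)) := by
    apply mul_left_cancel₀ hz2
    linear_combination E2
  apply mul_left_cancel₀ hb0'
  linear_combination (Λ' i1 - Λ' i0) * E2' - (Λ' i2 - Λ' i0) * E1'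

/-- detecting quadratic relations by trinomials -/
lemma core3 {m : ℕ} {Λ Λ' : Fin m → ℂ} (hΛ : Function.Injective Λ) (hΛ' : Function.Injective Λ')
    (h : DopeEquiv Λ Λ') {i0 i1 i2 : Fin m} (h01 : i0 ≠ i1) (h02 : i0 ≠ i2) (y1 y2 z : ℕ)
    (hy : y1 ≠ y2)
    (hr : ((z : ℂ) + 1) * (z + 2) * (Λ i1 - Λ i0) ^ 2
      - (y1 + y2 + 3) * (z + 2) * (Λ i1 - Λ i0) * (Λ i2 - Λ i0)
      + (y1 + 2) * (y2 + 2) * (Λ i2 - Λ i0) ^ 2 = 0) :
    ((z : ℂ) + 1) * (z + 2) * (Λ' i1 - Λ' i0) ^ 2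
      - (y1 + y2 + 3) * (z + 2) * (Λ' i1 - Λ' i0) * (Λ' i2 - Λ' i0)
      + (y1 + 2) * (y2 + 2) * (Λ' i2 - Λ' i0) ^ 2 = 0 := by
  have n1 : Λ i1 ≠ Λ i0 := fun e => h01 (hΛ e).symm
  have n2 : Λ i2 ≠ Λ i0 := fun e => h02 (hΛ e).symm
  have n1' : Λ' i1 ≠ Λ' i0 := fun e => h01 (hΛ' e).symm
  have n2' : Λ' i2 ≠ Λ' i0 := fun e => h02 (hΛ' e).symm
  have w1 : Λ i1 - Λ i0 ≠ 0 := sub_ne_zero.mpr n1
  have w1' : Λ' i1 - Λ' i0 ≠ 0 := sub_ne_zero.mpr n1'
  have hy12 : ((y1 : ℂ) + 2) ≠ 0 := by exact_mod_cast Nat.succ_ne_zero (y1 + 1)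
  have hy22 : ((y2 : ℂ) + 2) ≠ 0 := by exact_mod_cast Nat.succ_ne_zero (y2 + 1)
  have hyy : ((y1 : ℂ) - y2) ≠ 0 := by
    rw [sub_ne_zero]; exact_mod_cast hy
  set N := y1 + y2 + z with hN
  set P := Q (Λ i0) N ((Λ i1 - Λ i0) ^ 2) (-((y1 + y2 + 3) * (Λ i1 - Λ i0)))
    ((y1 + 2) * (y2 + 2)) with hP
  have hdeg : P.degree = ((N + 2 : ℕ) : WithBot ℕ) := degreeQ _ _ _ _ _ (mul_ne_zero hy12 hy22)
  obtain ⟨P', hd', hT⟩ := transfer h hdeg
  have hnd : P'.natDegree ≤ N + 2 := natDegree_le_of_degree_le (le_of_eq hd')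
  have hrep := repr (Λ' i0) N P' hnd (fun k hk =>
    (hT i0 k (by omega)).mp (evalQ_self (Λ i0) N k hk _ _ _))
  set b0 := (derivative^[N] P').eval (Λ' i0) with hb0
  set b1 := (derivative^[N + 1] P').eval (Λ' i0) with hb1
  set b2 := (derivative^[N + 2] P').eval (Λ' i0) with hb2
  have hb0' : b0 ≠ 0 := by
    intro h0
    have := (hT i0 N (by omega)).mpr h0
    rw [hP, evalQ_self'] at this
    exact (pow_ne_zero 2 w1) this
  have E1 : b0 * (y1 + 1) * (y1 + 2) + b1 * (y1 + 2) * (Λ' i1 - Λ' i0)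
      + b2 * (Λ' i1 - Λ' i0) ^ 2 = 0 := by
    rw [← evalQ_zero_iff n1' N y1 (by omega), ← hrep]
    refine (hT i1 (N - y1) (by omega)).mp ?_
    rw [hP, evalQ_zero_iff n1 N y1 (by omega)]
    ring
  have E2 : b0 * (y2 + 1) * (y2 + 2) + b1 * (y2 + 2) * (Λ' i1 - Λ' i0)
      + b2 * (Λ' i1 - Λ' i0) ^ 2 = 0 := by
    rw [← evalQ_zero_iff n1' N y2 (by omega), ← hrep]
    refine (hT i1 (N - y2) (by omega)).mp ?_
    rw [hP, evalQ_zero_iff n1 N y2 (by omega)]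
    ring
  have E3 : b0 * (z + 1) * (z + 2) + b1 * (z + 2) * (Λ' i2 - Λ' i0)
      + b2 * (Λ' i2 - Λ' i0) ^ 2 = 0 := by
    rw [← evalQ_zero_iff n2' N z (by omega), ← hrep]
    refine (hT i2 (N - z) (by omega)).mp ?_
    rw [hP, evalQ_zero_iff n2 N z (by omega)]
    linear_combination hr
  have E1' : b1 * (Λ' i1 - Λ' i0) = - (b0 * (y1 + y2 + 3)) := by
    apply mul_left_cancel₀ hyy
    linear_combination E1 - E2
  have E2' : b2 * (Λ' i1 - Λ' i0) ^ 2 = b0 * ((y1 + 2) * (y2 + 2)) := by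
    linear_combination E1 - (y1 + 2) * E1'
  apply mul_left_cancel₀ hb0'
  linear_combination (Λ' i1 - Λ' i0) ^ 2 * E3 - (z + 2) * (Λ' i1 - Λ' i0) * (Λ' i2 - Λ' i0) * E1'
    - (Λ' i2 - Λ' i0) ^ 2 * E2'


/-- the Pell part -/
lemma quad_pos (a b c : ℤ) (ha : 0 < a) (hb : 0 < b) (hbc : b ≤ c)
    (hE : 0 < a ^ 2 - 4 * b * c) (hsq : ¬ IsSquare (a ^ 2 - 4 * b * c)) :
    ∃ y1 y2 z x : ℕ, y1 ≠ y2 ∧ 0 < x ∧ (z : ℤ) + 1 = c * x ∧ (y1 : ℤ) + y2 + 3 = a * x ∧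
      ((y1 : ℤ) + 2) * (y2 + 2) = b * x * (c * x + 1) := by
  obtain ⟨p0, q0, hpq0, hq0⟩ := Pell.exists_of_not_isSquare hE hsq
  obtain ⟨p, q, hp, hq, hpell⟩ : ∃ p q : ℤ, 0 ≤ p ∧ 0 < q ∧
      p ^ 2 - (a ^ 2 - 4 * b * c) * q ^ 2 = 1 := by
    refine ⟨|p0|, |q0|, abs_nonneg _, abs_pos.mpr hq0, ?_⟩
    rw [sq_abs, sq_abs]; exact hpq0
  have hc : 0 < c := lt_of_lt_of_le hb hbc
  have hp1 : 0 < p := by
    rcases hp.lt_or_eq with h | h
    · exact h
    · exfalso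
      rw [← h] at hpell
      have : 0 ≤ (a ^ 2 - 4 * b * c) * q ^ 2 := by positivity
      linarith
  have hh : 0 < a - 2 * b := by
    by_contra hcon
    have h1 : a ≤ 2 * b := by linarith
    have h2 : a ^ 2 ≤ 4 * b ^ 2 := by nlinarith
    have h3 : b ^ 2 ≤ b * c := by nlinarith
    nlinarith
  have hs : 0 < q * (2 * c - a) + p := by
    rcases le_or_gt 0 (2 * c - a) with h | h
    · have : 0 ≤ q * (2 * c - a) := mul_nonneg hq.le h
      linarith
    · by_contra hcon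
      have h1 : p ≤ q * (a - 2 * c) := by linarith
      have h2 : p ^ 2 ≤ (q * (a - 2 * c)) ^ 2 := pow_le_pow_left₀ hp h1 2
      have h3 : (a - 2 * c) ^ 2 ≤ a ^ 2 - 4 * b * c := by
        have : 0 ≤ 4 * c * (a - b - c) := by
          apply mul_nonneg (by linarith); linarith
        nlinarith
      have h4 : (q * (a - 2 * c)) ^ 2 ≤ (a ^ 2 - 4 * b * c) * q ^ 2 := by
        rw [mul_pow, mul_comm]
        exact mul_le_mul_of_nonneg_right h3 (by positivity)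
      linarith
  have hx : 0 < 2 * q * (q * (a - 2 * b) + p) := by positivity
  have hy2 : 0 ≤ 2 * b * q * (q * (2 * c - a) + p) - 2 := by
    have : 0 < b * q * (q * (2 * c - a) + p) := by positivity
    linarith
  have hW : 0 < 1 + 2 * (a ^ 2 - 4 * b * c) * q ^ 2 + 2 * p * q * (a - 2 * b) := by positivity
  have hz : 0 ≤ c * (2 * q * (q * (a - 2 * b) + p)) - 1 := by
    have : 0 < c * (2 * q * (q * (a - 2 * b) + p)) := by positivity
    linarith
  obtain ⟨x, hxe⟩ := Int.eq_ofNat_of_zero_le hx.le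
  obtain ⟨y2, hy2e⟩ := Int.eq_ofNat_of_zero_le hy2
  obtain ⟨z, hze⟩ := Int.eq_ofNat_of_zero_le hz
  obtain ⟨W, hWe⟩ := Int.eq_ofNat_of_zero_le hW.le
  refine ⟨y2 + W, y2, z, x, ?_, ?_, ?_, ?_, ?_⟩
  · have : 0 < W := by
      have := hWe ▸ hW
      exact_mod_cast this
    omega
  · have := hxe ▸ hx
    exact_mod_cast this
  · rw [← hxe, ← hze]; ring
  · push_cast
    rw [← hxe, ← hy2e, ← hWe]; ring
  · push_cast
    rw [← hxe, ← hy2e, ← hWe]
    linear_combination (4 * b * q ^ 2 * (a - b - c)) * hpell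


lemma core4a {m : ℕ} {Λ Λ' : Fin m → ℂ} (hΛ : Function.Injective Λ) (hΛ' : Function.Injective Λ')
    (h : DopeEquiv Λ Λ') {i0 i1 i2 : Fin m} (h01 : i0 ≠ i1) (h02 : i0 ≠ i2) (a b c : ℤ)
    (ha : 0 < a) (hb : 0 < b) (hbc : b ≤ c)
    (hE : 0 < a ^ 2 - 4 * b * c) (hsq : ¬ IsSquare (a ^ 2 - 4 * b * c))
    (hr : (b : ℂ) * (Λ i2 - Λ i0) ^ 2 - a * (Λ i1 - Λ i0) * (Λ i2 - Λ i0)
      + c * (Λ i1 - Λ i0) ^ 2 = 0) :
    (b : ℂ) * (Λ' i2 - Λ' i0) ^ 2 - a * (Λ' i1 - Λ' i0) * (Λ' i2 - Λ' i0)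
      + c * (Λ' i1 - Λ' i0) ^ 2 = 0 := by
  obtain ⟨y1, y2, z, x, hy, hx, h1, h2, h3⟩ := quad_pos a b c ha hb hbc hE hsq
  have hc : 0 < c := lt_of_lt_of_le hb hbc
  have h1' : (z : ℂ) + 1 = c * x := by exact_mod_cast congrArg (Int.cast : ℤ → ℂ) h1
  have h2' : (y1 : ℂ) + y2 + 3 = a * x := by exact_mod_cast congrArg (Int.cast : ℤ → ℂ) h2
  have h3' : ((y1 : ℂ) + 2) * (y2 + 2) = b * x * (c * x + 1) := by
    exact_mod_cast congrArg (Int.cast : ℤ → ℂ) h3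
  have h4' : (z : ℂ) + 2 = c * x + 1 := by linear_combination h1'
  have hx0 : (x : ℂ) ≠ 0 := by exact_mod_cast hx.ne'
  have hx1 : (c : ℂ) * x + 1 ≠ 0 := by
    have : (0 : ℤ) < c * x + 1 := by positivity
    exact_mod_cast this.ne'
  have key := core3 hΛ hΛ' h h01 h02 y1 y2 z hy (by
    rw [h1', h2', h3', h4']
    linear_combination (x : ℂ) * (c * x + 1) * hr)
  rw [h1', h2', h3', h4'] at key
  apply mul_left_cancel₀ (mul_ne_zero hx0 hx1)
  linear_combination key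

lemma core4 {m : ℕ} {Λ Λ' : Fin m → ℂ} (hΛ : Function.Injective Λ) (hΛ' : Function.Injective Λ')
    (h : DopeEquiv Λ Λ') {i0 i1 i2 : Fin m} (h01 : i0 ≠ i1) (h02 : i0 ≠ i2) (a b c : ℤ)
    (ha : 0 < a) (hb : 0 < b) (hc : 0 < c)
    (hE : 0 < a ^ 2 - 4 * b * c) (hsq : ¬ IsSquare (a ^ 2 - 4 * b * c))
    (hr : (b : ℂ) * (Λ i2 - Λ i0) ^ 2 - a * (Λ i1 - Λ i0) * (Λ i2 - Λ i0)
      + c * (Λ i1 - Λ i0) ^ 2 = 0) :
    (b : ℂ) * (Λ' i2 - Λ' i0) ^ 2 - a * (Λ' i1 - Λ' i0) * (Λ' i2 - Λ' i0)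
      + c * (Λ' i1 - Λ' i0) ^ 2 = 0 := by
  rcases le_total b c with hbc | hcb
  · exact core4a hΛ hΛ' h h01 h02 a b c ha hb hbc hE hsq hr
  · have e : a ^ 2 - 4 * b * c = a ^ 2 - 4 * c * b := by ring
    have := core4a hΛ hΛ' h h02 h01 a c b ha hc hcb (e ▸ hE) (e ▸ hsq)
      (by linear_combination hr)
    linear_combination this

lemma core5 {m : ℕ} {Λ Λ' : Fin m → ℂ} (hΛ : Function.Injective Λ) (hΛ' : Function.Injective Λ')
    (h : DopeEquiv Λ Λ') {i j k : Fin m} (hij : i ≠ j) (hik : i ≠ k) (hjk : j ≠ k) (A B C : ℤ)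
    (hA : 0 < A) (hE : 0 < B ^ 2 - 4 * A * C) (hsq : ¬ IsSquare (B ^ 2 - 4 * A * C))
    (hr : (A : ℂ) * (Λ k - Λ i) ^ 2 + B * (Λ j - Λ i) * (Λ k - Λ i)
      + C * (Λ j - Λ i) ^ 2 = 0) :
    (A : ℂ) * (Λ' k - Λ' i) ^ 2 + B * (Λ' j - Λ' i) * (Λ' k - Λ' i)
      + C * (Λ' j - Λ' i) ^ 2 = 0 := by
  have hC0 : C ≠ 0 := by
    rintro rfl
    exact hsq ⟨B, by ring⟩
  have hF0 : A + B + C ≠ 0 := by
    intro h0
    have hB : B = -(A + C) := by linarith
    subst hB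
    exact hsq ⟨A - C, by ring⟩
  have caseOne : 0 < A + B + C → 0 < 2 * A + B →
      (A : ℂ) * (Λ' k - Λ' i) ^ 2 + B * (Λ' j - Λ' i) * (Λ' k - Λ' i)
        + C * (Λ' j - Λ' i) ^ 2 = 0 := by
    intro hF hs
    have e : (2 * A + B) ^ 2 - 4 * A * (A + B + C) = B ^ 2 - 4 * A * C := by ring
    have := core4 hΛ hΛ' h (i0 := j) (i1 := i) (i2 := k) hij.symm hjk (2 * A + B) A (A + B + C)
      hs hA hF (by rw [e]; exact hE) (by rw [e]; exact hsq)
      (by push_cast; linear_combination hr)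
    push_cast at this
    linear_combination this
  rcases lt_or_gt_of_ne hC0 with hC | hC
  · rcases lt_or_gt_of_ne hF0 with hF | hF
    · have e : (-(B + 2 * C)) ^ 2 - 4 * (-(A + B + C)) * (-C) = B ^ 2 - 4 * A * C := by ring
      have := core4 hΛ hΛ' h (i0 := k) (i1 := j) (i2 := i) hjk.symm hik.symm (-(B + 2 * C))
        (-(A + B + C)) (-C) (by linarith) (by linarith) (by linarith)
        (by rw [e]; exact hE) (by rw [e]; exact hsq)
        (by push_cast; linear_combination -hr)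
      push_cast at this
      linear_combination -this
    · exact caseOne hF (by linarith)
  · have hB0 : B ≠ 0 := by
      rintro rfl
      have : 0 < A * C := mul_pos hA hC
      linarith
    rcases lt_or_gt_of_ne hB0 with hB | hB
    · have e : (-B) ^ 2 - 4 * A * C = B ^ 2 - 4 * A * C := by ring
      have := core4 hΛ hΛ' h (i0 := i) (i1 := j) (i2 := k) hij hik (-B) A C
        (by linarith) hA hC (by rw [e]; exact hE) (by rw [e]; exact hsq)
        (by push_cast; linear_combination hr)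
      push_cast at this
      linear_combination this
    · exact caseOne (by linarith) (by linarith)

lemma core6 {m : ℕ} {Λ Λ' : Fin m → ℂ} (hΛ : Function.Injective Λ) (hΛ' : Function.Injective Λ')
    (h : DopeEquiv Λ Λ') {i j k : Fin m} (hij : i ≠ j) (hik : i ≠ k) (hjk : j ≠ k) (r s : ℤ)
    (hs : 0 < s) (hr : (s : ℂ) * (Λ k - Λ i) = r * (Λ j - Λ i)) :
    (s : ℂ) * (Λ' k - Λ' i) = r * (Λ' j - Λ' i) := by
  have hr0 : r ≠ 0 := by
    rintro rfl
    have hs0 : (s : ℂ) ≠ 0 := by exact_mod_cast hs.ne'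
    rw [Int.cast_zero, zero_mul] at hr
    exact hik (hΛ (sub_eq_zero.mp ((mul_eq_zero.mp hr).resolve_left hs0))).symm
  rcases lt_or_gt_of_ne hr0 with hneg | hpos
  · obtain ⟨y, hy⟩ := Int.eq_ofNat_of_zero_le (show 0 ≤ s - 1 by linarith)
    obtain ⟨z, hz⟩ := Int.eq_ofNat_of_zero_le (show 0 ≤ s - r - 1 by linarith)
    have hy' : (y : ℂ) + 1 = s := by
      have : (y : ℤ) + 1 = s := by rw [← hy]; ring
      exact_mod_cast congrArg (Int.cast : ℤ → ℂ) this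
    have hz' : (z : ℂ) + 1 = s - r := by
      have : (z : ℤ) + 1 = s - r := by rw [← hz]; ring
      exact_mod_cast congrArg (Int.cast : ℤ → ℂ) this
    have := core2 hΛ hΛ' h (i0 := j) (i1 := i) (i2 := k) hij.symm hjk y z
      (by rw [hy', hz']; linear_combination -hr)
    rw [hy', hz'] at this
    linear_combination -this
  · obtain ⟨y, hy⟩ := Int.eq_ofNat_of_zero_le (show 0 ≤ s - 1 by linarith)
    obtain ⟨z, hz⟩ := Int.eq_ofNat_of_zero_le (show 0 ≤ r - 1 by linarith)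
    have hy' : (y : ℂ) + 1 = s := by
      have : (y : ℤ) + 1 = s := by rw [← hy]; ring
      exact_mod_cast congrArg (Int.cast : ℤ → ℂ) this
    have hz' : (z : ℂ) + 1 = r := by
      have : (z : ℤ) + 1 = r := by rw [← hz]; ring
      exact_mod_cast congrArg (Int.cast : ℤ → ℂ) this
    have := core2 hΛ hΛ' h (i0 := i) (i1 := j) (i2 := k) hij hik y z
      (by rw [hy', hz']; linear_combination -hr)
    rw [hy', hz'] at this
    linear_combination -this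


lemma extend_aut (K : Type) [Field K] [Algebra K ℂ] (σ : K ≃+* K) :
    ∃ φ : ℂ ≃+* ℂ, ∀ k : K, φ (algebraMap K ℂ k) = algebraMap K ℂ (σ k) := by
  obtain ⟨s, hs⟩ := exists_isTranscendenceBasis K ℂ
  let v : s → ℂ := Subtype.val
  have := IsAlgClosed.isAlgClosure_of_transcendence_basis v hs
  let e : Algebra.adjoin K (Set.range v) ≃+* Algebra.adjoin K (Set.range v) :=
    (hs.1.aevalEquiv.symm.toRingEquiv.trans (MvPolynomial.mapEquiv s σ)).trans
      hs.1.aevalEquiv.toRingEquiv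
  refine ⟨IsAlgClosure.equivOfEquiv ℂ ℂ e, fun k => ?_⟩
  have h1 : algebraMap K ℂ k = algebraMap (Algebra.adjoin K (Set.range v)) ℂ (algebraMap K _ k) := rfl
  rw [h1, IsAlgClosure.equivOfEquiv_algebraMap]
  have h2 : e (algebraMap K _ k) = algebraMap K _ (σ k) := by
    show hs.1.aevalEquiv (MvPolynomial.mapEquiv s σ (hs.1.aevalEquiv.symm (algebraMap K _ k))) = _
    rw [AlgEquiv.commutes, MvPolynomial.algebraMap_eq, MvPolynomial.mapEquiv_apply, MvPolynomial.map_C,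
      ← MvPolynomial.algebraMap_eq]
    exact AlgEquiv.commutes _ _
  rw [h2]
  rfl

lemma exists_conj_aut (D : ℕ) (hD : ¬ IsSquare D) :
    ∃ φ : ℂ ≃+* ℂ, φ ((Real.sqrt D : ℝ) : ℂ) = -((Real.sqrt D : ℝ) : ℂ) := by
  set s : ℂ := ((Real.sqrt D : ℝ) : ℂ) with hs
  have hs2 : s ^ 2 = (D : ℂ) := by
    rw [hs, ← Complex.ofReal_pow, Real.sq_sqrt (Nat.cast_nonneg D)]
    simp
  have halg : IsAlgebraic ℚ s := by
    refine ⟨X ^ 2 - C (D : ℚ), X_pow_sub_C_ne_zero (by norm_num) _, ?_⟩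
    simp [hs2]
  let K := algebraicClosure ℚ ℂ
  let t : K := ⟨s, (mem_algebraicClosure_iff).mpr halg⟩
  have ht2 : t ^ 2 = ((D : ℚ) : K) := by
    apply Subtype.ext
    simp [t, hs2]
  have hirr : Irreducible (X ^ 2 - C (D : ℚ)) := by
    refine Polynomial.irreducible_of_degree_le_three_of_not_isRoot ?_ ?_
    · rw [natDegree_X_pow_sub_C]; decide
    · intro x hx
      simp [IsRoot] at hx
      apply hD
      have h1 : IsSquare ((D : ℕ) : ℚ) := ⟨x, by linear_combination -hx⟩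
      exact Rat.isSquare_natCast_iff.mp h1
  have hmin : minpoly ℚ t = X ^ 2 - C (D : ℚ) := by
    symm
    apply minpoly.eq_of_irreducible_of_monic hirr
    · simp [ht2]
    · exact monic_X_pow_sub_C _ (by norm_num)
  have : IsAlgClosure ℚ K := algebraicClosure.isAlgClosure ℚ ℂ
  have : Normal ℚ K := IsAlgClosure.normal ℚ K
  have halgt : IsAlgebraic ℚ t := by
    refine ⟨X ^ 2 - C (D : ℚ), X_pow_sub_C_ne_zero (by norm_num) _, ?_⟩
    simp [ht2]
  obtain ⟨σ, hσ⟩ := minpoly.exists_algEquiv_of_root' (K := ℚ) (L := K) (x := -t) (y := t) halgt (by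
    rw [hmin]; simp [ht2])
  obtain ⟨φ, hφ⟩ := extend_aut K (σ.toRingEquiv)
  refine ⟨φ, ?_⟩
  have := hφ t
  have h3 : (σ.toRingEquiv t) = -t := hσ
  rw [h3] at this
  exact this

lemma not_isSquare_rat {D : ℕ} (hD : ¬ IsSquare D) {x y : ℚ} (hy : y ≠ 0) : x ^ 2 ≠ y ^ 2 * D := by
  intro he
  apply hD
  have h1 : IsSquare ((D : ℕ) : ℚ) := by
    refine ⟨x / y, ?_⟩
    field_simp
    linarith
  exact Rat.isSquare_natCast_iff.mp h1

lemma sqrt_sq' (D : ℕ) : (((Real.sqrt D : ℝ) : ℂ)) ^ 2 = (D : ℂ) := by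
  rw [← Complex.ofReal_pow, Real.sq_sqrt (Nat.cast_nonneg D)]
  simp

lemma pair {m : ℕ} {Λ Λ' : Fin m → ℂ} (hΛ : Function.Injective Λ) (hΛ' : Function.Injective Λ')
    (h : DopeEquiv Λ Λ') (D : ℕ) (hD : ¬ IsSquare D) {i j k : Fin m} (hij : i ≠ j) (hik : i ≠ k)
    (hjk : j ≠ k) (x y : ℚ)
    (hr : Λ k - Λ i = (x + y * ((Real.sqrt D : ℝ) : ℂ)) * (Λ j - Λ i)) :
    Λ' k - Λ' i = (x + y * ((Real.sqrt D : ℝ) : ℂ)) * (Λ' j - Λ' i) ∨
      Λ' k - Λ' i = (x - y * ((Real.sqrt D : ℝ) : ℂ)) * (Λ' j - Λ' i) := by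
  set s : ℂ := ((Real.sqrt D : ℝ) : ℂ) with hs
  have hs2 : s ^ 2 = (D : ℂ) := sqrt_sq' D
  have hxd : ((x.den : ℕ) : ℂ) ≠ 0 := by exact_mod_cast x.den_nz
  have hyd : ((y.den : ℕ) : ℂ) ≠ 0 := by exact_mod_cast y.den_nz
  have hxe : (x : ℂ) * x.den = x.num := by exact_mod_cast congrArg (Rat.cast : ℚ → ℂ) (Rat.mul_den_eq_num x)
  have hye : (y : ℂ) * y.den = y.num := by exact_mod_cast congrArg (Rat.cast : ℚ → ℂ) (Rat.mul_den_eq_num y)
  by_cases hy : y = 0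
  · left
    subst hy
    have := core6 hΛ hΛ' h hij hik hjk x.num x.den (by exact_mod_cast x.den_pos) (by
      push_cast
      rw [hr, ← hxe]; simp; ring)
    push_cast at this
    apply mul_left_cancel₀ hxd
    rw [this, ← hxe]; simp; ring
  · have hM : (0 : ℤ) < x.den * y.den := by
      have h1 := x.den_pos
      have h2 := y.den_pos
      positivity
    have hY : (y.num * x.den : ℤ) ≠ 0 := by
      apply mul_ne_zero
      · exact Rat.num_ne_zero.mpr hy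
      · exact_mod_cast x.den_nz
    set M : ℤ := x.den * y.den with hMd
    set X : ℤ := x.num * y.den with hXd
    set Y : ℤ := y.num * x.den with hYd
    have hD0 : 0 < D := by
      rcases Nat.eq_zero_or_pos D with h0 | h0
      · exact absurd ⟨0, by simp [h0]⟩ hD
      · exact h0
    have e : (-2 * X * M) ^ 2 - 4 * M ^ 2 * (X ^ 2 - Y ^ 2 * D) = (2 * M * Y) ^ 2 * D := by ring
    have hpos : 0 < (-2 * X * M) ^ 2 - 4 * M ^ 2 * (X ^ 2 - Y ^ 2 * D) := by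
      rw [e]
      have : (2 * M * Y) ≠ 0 := mul_ne_zero (mul_ne_zero two_ne_zero hM.ne') hY
      positivity
    have hsq : ¬ IsSquare ((-2 * X * M) ^ 2 - 4 * M ^ 2 * (X ^ 2 - Y ^ 2 * D)) := by
      rw [e]
      rintro ⟨r, hr'⟩
      have hne : ((2 * M * Y : ℤ) : ℚ) ≠ 0 := by
        exact_mod_cast mul_ne_zero (mul_ne_zero two_ne_zero hM.ne') hY
      refine not_isSquare_rat hD hne (x := (r : ℚ)) ?_
      have := congrArg (Int.cast : ℤ → ℚ) hr'
      push_cast at this ⊢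
      linarith
    have hMx : (M : ℂ) * x = X := by
      rw [hMd, hXd]; push_cast; linear_combination (y.den : ℂ) * hxe
    have hMy : (M : ℂ) * y = Y := by
      rw [hMd, hYd]; push_cast; linear_combination (x.den : ℂ) * hye
    have hMc : (M : ℂ) ≠ 0 := by exact_mod_cast hM.ne'
    have key := core5 hΛ hΛ' h hij hik hjk (M ^ 2) (-2 * X * M) (X ^ 2 - Y ^ 2 * D)
      (by positivity) hpos hsq (by
        push_cast
        rw [hr, ← hMx, ← hMy]
        linear_combination (M : ℂ) ^ 2 * y ^ 2 * (Λ j - Λ i) ^ 2 * hs2)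
    push_cast at key
    rw [← hMx, ← hMy] at key
    have key2 : (M : ℂ) ^ 2 * (((Λ' k - Λ' i) - (x + y * s) * (Λ' j - Λ' i)) *
        ((Λ' k - Λ' i) - (x - y * s) * (Λ' j - Λ' i))) = 0 := by
      linear_combination key - (M : ℂ) ^ 2 * y ^ 2 * (Λ' j - Λ' i) ^ 2 * hs2
    rcases mul_eq_zero.mp ((mul_eq_zero.mp key2).resolve_left (pow_ne_zero 2 hMc)) with h1 | h1
    · left; linear_combination h1
    · right; linear_combination h1

/-- the field `ℚ(√D)` -/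
def InK (D : ℕ) (u : ℂ) : Prop := ∃ x y : ℚ, u = x + y * ((Real.sqrt D : ℝ) : ℂ)

lemma InK.sub {D : ℕ} {u v : ℂ} (hu : InK D u) (hv : InK D v) : InK D (u - v) := by
  obtain ⟨x, y, rfl⟩ := hu
  obtain ⟨x', y', rfl⟩ := hv
  exact ⟨x - x', y - y', by push_cast; ring⟩

lemma InK.div {D : ℕ} (hD : ¬ IsSquare D) {u v : ℂ} (hu : InK D u) (hv : InK D v) :
    InK D (u / v) := by
  obtain ⟨x', y', rfl⟩ := hu
  obtain ⟨x, y, rfl⟩ := hv
  set s : ℂ := ((Real.sqrt D : ℝ) : ℂ) with hs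
  have hs2 : s ^ 2 = (D : ℂ) := sqrt_sq' D
  by_cases h0 : (x : ℂ) + y * s = 0
  · rw [h0, div_zero]; exact ⟨0, 0, by simp⟩
  · have hn : x ^ 2 - y ^ 2 * D ≠ 0 := by
      intro hcon
      by_cases hy : y = 0
      · subst hy
        have : x = 0 := by
          have : x ^ 2 = 0 := by linear_combination hcon
          exact pow_eq_zero_iff (two_ne_zero) |>.mp this
        subst this
        simp at h0
      · exact not_isSquare_rat hD (x := x) hy (by linarith)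
    have hnc : ((x : ℂ) ^ 2 - y ^ 2 * D) ≠ 0 := by exact_mod_cast hn
    refine ⟨(x' * x - y' * y * D) / (x ^ 2 - y ^ 2 * D), (y' * x - x' * y) / (x ^ 2 - y ^ 2 * D), ?_⟩
    push_cast
    rw [div_eq_iff h0]
    field_simp
    rw [← hs2]
    ring

theorem result (m : ℕ) (Λ Λ' : Fin m → ℂ) (hΛ : Function.Injective Λ)
    (hΛ' : Function.Injective Λ') (h : DopeEquiv Λ Λ') (D : ℕ) (hD : ¬ IsSquare D) :
    (∀ i j k : Fin m, i ≠ j → i ≠ k → j ≠ k → ∀ x y : ℚ,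
      Λ k - Λ i = (x + y * ((Real.sqrt D : ℝ) : ℂ)) * (Λ j - Λ i) →
      (Λ' k - Λ' i = (x + y * ((Real.sqrt D : ℝ) : ℂ)) * (Λ' j - Λ' i) ∨
        Λ' k - Λ' i = (x - y * ((Real.sqrt D : ℝ) : ℂ)) * (Λ' j - Λ' i))) ∧
    ((∃ a₀ b₀ : ℂ, ∀ i, ∃ x y : ℚ, Λ i = a₀ + b₀ * (x + y * ((Real.sqrt D : ℝ) : ℂ))) →
      ∃ (a b : ℂ) (φ : ℂ ≃+* ℂ), b ≠ 0 ∧ ∀ i, Λ' i = a + b * φ (Λ i)) := by
  refine ⟨fun i j k hij hik hjk x y hr => pair hΛ hΛ' h D hD hij hik hjk x y hr, ?_⟩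
  rintro ⟨a₀, b₀, hab⟩
  by_cases hm : ∃ i0 i1 : Fin m, i0 ≠ i1
  · obtain ⟨i0, i1, h01⟩ := hm
    have hw : Λ i1 - Λ i0 ≠ 0 := sub_ne_zero.mpr fun e => h01 (hΛ e).symm
    have hw' : Λ' i1 - Λ' i0 ≠ 0 := sub_ne_zero.mpr fun e => h01 (hΛ' e).symm
    obtain ⟨φ, hφ⟩ := exists_conj_aut D hD
    have hφK : ∀ x y : ℚ, φ (x + y * ((Real.sqrt D : ℝ) : ℂ)) = x - y * ((Real.sqrt D : ℝ) : ℂ) := by
      intro x y
      rw [map_add, map_mul, hφ, map_ratCast, map_ratCast]; ring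
    have hb₀ : b₀ ≠ 0 := by
      rintro rfl
      obtain ⟨_, _, h1⟩ := hab i1
      obtain ⟨_, _, h0⟩ := hab i0
      apply hw
      rw [h1, h0]; ring
    have hK : ∀ k, InK D ((Λ k - Λ i0) / (Λ i1 - Λ i0)) := by
      intro k
      obtain ⟨xk, yk, hk⟩ := hab k
      obtain ⟨x0, y0, h0⟩ := hab i0
      obtain ⟨x1, y1, h1⟩ := hab i1
      have e : (Λ k - Λ i0) / (Λ i1 - Λ i0)
          = ((xk + yk * ((Real.sqrt D : ℝ) : ℂ)) - (x0 + y0 * ((Real.sqrt D : ℝ) : ℂ)))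
            / ((x1 + y1 * ((Real.sqrt D : ℝ) : ℂ)) - (x0 + y0 * ((Real.sqrt D : ℝ) : ℂ))) := by
        rw [hk, h0, h1, add_sub_add_left_eq_sub, add_sub_add_left_eq_sub, ← mul_sub, ← mul_sub,
          mul_div_mul_left _ _ hb₀]
      rw [e]
      exact InK.div hD (InK.sub ⟨xk, yk, rfl⟩ ⟨x0, y0, rfl⟩) (InK.sub ⟨x1, y1, rfl⟩ ⟨x0, y0, rfl⟩)
    -- the two possibilities for every index
    have hfix : ∀ k, (Λ' k - Λ' i0) / (Λ' i1 - Λ' i0) = (Λ k - Λ i0) / (Λ i1 - Λ i0) ∨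
        (Λ' k - Λ' i0) / (Λ' i1 - Λ' i0) = φ ((Λ k - Λ i0) / (Λ i1 - Λ i0)) := by
      intro k
      by_cases hk0 : k = i0
      · subst hk0; left; simp
      by_cases hk1 : k = i1
      · subst hk1; left; rw [div_self hw, div_self hw']
      obtain ⟨x, y, hxy⟩ := hK k
      rcases pair hΛ hΛ' h D hD h01 (Ne.symm hk0) (Ne.symm hk1) x y
        (by rw [← hxy, div_mul_cancel₀ _ hw]) with h1 | h1
      · left; rw [hxy, div_eq_iff hw']; exact h1
      · right; rw [hxy, hφK, div_eq_iff hw']; exact h1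
    have fin : ∀ ψ : ℂ ≃+* ℂ, (∀ k, (Λ' k - Λ' i0) / (Λ' i1 - Λ' i0)
        = ψ ((Λ k - Λ i0) / (Λ i1 - Λ i0))) →
        ∃ (a b : ℂ) (φ : ℂ ≃+* ℂ), b ≠ 0 ∧ ∀ i, Λ' i = a + b * φ (Λ i) := by
      intro ψ hψ
      have hψw : ψ (Λ i1) - ψ (Λ i0) ≠ 0 := by
        rw [← map_sub]
        intro h0
        exact hw ((map_eq_zero_iff ψ ψ.injective).mp h0)
      refine ⟨Λ' i0 - (Λ' i1 - Λ' i0) / (ψ (Λ i1) - ψ (Λ i0)) * ψ (Λ i0),
        (Λ' i1 - Λ' i0) / (ψ (Λ i1) - ψ (Λ i0)), ψ, div_ne_zero hw' hψw, fun k => ?_⟩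
      have := hψ k
      rw [map_div₀, map_sub, map_sub, div_eq_div_iff hw' hψw] at this
      field_simp
      linear_combination this
    by_cases hall : ∀ k, (Λ' k - Λ' i0) / (Λ' i1 - Λ' i0) = (Λ k - Λ i0) / (Λ i1 - Λ i0)
    · exact fin (RingEquiv.refl ℂ) (fun k => by simpa using hall k)
    · push Not at hall
      obtain ⟨k, hk⟩ := hall
      have hk' := (hfix k).resolve_left hk
      have hk0 : k ≠ i0 := by
        rintro rfl; exact hk (by simp)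
      have hk1 : k ≠ i1 := by
        rintro rfl; exact hk (by rw [div_self hw, div_self hw'])
      have hkw : Λ k - Λ i0 ≠ 0 := sub_ne_zero.mpr fun e => hk0 (hΛ e)
      have hkw' : Λ' k - Λ' i0 ≠ 0 := sub_ne_zero.mpr fun e => hk0 (hΛ' e)
      refine fin φ (fun l => ?_)
      by_cases hlk : l = k
      · rw [hlk]; exact hk'
      by_cases hl0 : l = i0
      · subst hl0; simp
      rcases hfix l with hl | hl
      swap
      · exact hl
      obtain ⟨x, y, hxy⟩ := InK.div hD (hK l) (hK k)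
      have hτ : (Λ l - Λ i0) / (Λ k - Λ i0) = x + y * ((Real.sqrt D : ℝ) : ℂ) := by
        rw [← hxy]; field_simp
      have hmk : (Λ k - Λ i0) / (Λ i1 - Λ i0) ≠ 0 := div_ne_zero hkw hw
      have hφmk : φ ((Λ k - Λ i0) / (Λ i1 - Λ i0)) ≠ 0 := fun h0 =>
        hmk ((map_eq_zero_iff φ φ.injective).mp h0)
      rcases pair hΛ hΛ' h D hD (Ne.symm hk0) (Ne.symm hl0) (Ne.symm hlk) x y
        (by rw [← hτ, div_mul_cancel₀ _ hkw]) with h1 | h1
      · exfalso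
        apply hk
        have e1 : (Λ' l - Λ' i0) / (Λ' i1 - Λ' i0)
            = (x + y * ((Real.sqrt D : ℝ) : ℂ)) * ((Λ' k - Λ' i0) / (Λ' i1 - Λ' i0)) := by
          rw [h1]; ring
        have e2 : (Λ l - Λ i0) / (Λ i1 - Λ i0)
            = (x + y * ((Real.sqrt D : ℝ) : ℂ)) * ((Λ k - Λ i0) / (Λ i1 - Λ i0)) := by
          rw [← hτ]; field_simp
        have hne : (x + y * ((Real.sqrt D : ℝ) : ℂ)) ≠ 0 := by
          rw [← hτ]
          exact div_ne_zero (sub_ne_zero.mpr fun e => hl0 (hΛ e)) hkw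
        apply mul_left_cancel₀ hne
        rw [← e1, ← e2, hl]
      · have e1 : (Λ' l - Λ' i0) / (Λ' i1 - Λ' i0)
            = (x - y * ((Real.sqrt D : ℝ) : ℂ)) * ((Λ' k - Λ' i0) / (Λ' i1 - Λ' i0)) := by
          rw [h1]; ring
        have e2 : (Λ l - Λ i0) / (Λ i1 - Λ i0)
            = (x + y * ((Real.sqrt D : ℝ) : ℂ)) * ((Λ k - Λ i0) / (Λ i1 - Λ i0)) := by
          rw [← hτ]; field_simp
        rw [e1, hk', e2, map_mul, hφK]
  · push Not at hm
    by_cases hne : Nonempty (Fin m)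
    · obtain ⟨i0⟩ := hne
      refine ⟨Λ' i0 - Λ i0, 1, RingEquiv.refl ℂ, one_ne_zero, fun i => ?_⟩
      rw [hm i i0]; simp
    · exact ⟨0, 1, RingEquiv.refl ℂ, one_ne_zero, fun i => absurd ⟨i⟩ hne⟩

end Pool.Agent.Results.MP_344d54_co.RealQuadratic
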